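import Mathlib

open MeasureTheory ProbabilityTheory Filter Topology

namespace Pool.Agent.H983R2.Polymer

/-- space-time sites `(i, x)` -/
abbrev Site (d : ℕ) := ℕ × (Fin d → ℤ)

/-- a step of the simple random walk: a coordinate direction and a sign -/
abbrev Step (d : ℕ) := Fin d × Bool

/-- the vector `± e_j` of a step -/
def stepVec {d : ℕ} (u : Step d) : Fin d → ℤ := Pi.single u.1 (if u.2 then 1 else -1)

/-- the position `S_i` at time `i` of the nearest neighbour path started at `0` with steps `s` -/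
def pos {d n : ℕ} (s : Fin n → Step d) (i : ℕ) : Fin d → ℤ :=
  ∑ k : Fin n, if k.val < i then stepVec (s k) else 0

/-- the energy `β * ∑_{i=1}^n ω(i, S_i)` of a path -/
noncomputable def energy {d n : ℕ} (β : ℝ) (ω : Site d → ℝ) (s : Fin n → Step d) : ℝ :=
  β * ∑ i ∈ Finset.Icc 1 n, ω (i, pos s i)

/-- the partition function `Z_n = E exp (β ∑_{i=1}^n ω(i,S_i))`; the `2d` steps are equally likely,
so that all `(2d)^n` paths are equally likely -/
noncomputable def Z (d n : ℕ) (β : ℝ) (ω : Site d → ℝ) : ℝ :=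
  (∑ s : Fin n → Step d, Real.exp (energy β ω s)) / (2 * d : ℝ) ^ n

/-- the polymer measure `P_n^{β,ω}` of a set of paths -/
noncomputable def polymer (d n : ℕ) (β : ℝ) (ω : Site d → ℝ) (A : Set (Fin n → Step d)) : ℝ := by
  classical
  exact (∑ s : Fin n → Step d, if s ∈ A then Real.exp (energy β ω s) else 0) /
    ∑ s : Fin n → Step d, Real.exp (energy β ω s)

/-- the law of the environment: i.i.d. with law `μ` -/
noncomputable def env (d : ℕ) (μ : Measure ℝ) [IsProbabilityMeasure μ] : Measure (Site d → ℝ) :=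
  Measure.infinitePi (fun _ => μ)

/-- the Euclidean norm on `ℤ^d` -/
noncomputable def eucl {d : ℕ} (x : Fin d → ℤ) : ℝ := Real.sqrt (∑ j, (x j : ℝ) ^ 2)

/-- the disorder laws (probability measures) allowed in the problem: not a.s. constant, and
`c(β) = log E exp (β ω) < ∞` for all `β ≥ 0` -/
structure IsDisorder (μ : Measure ℝ) : Prop where
  nonconst : ∀ a : ℝ, ¬ (∀ᵐ x ∂μ, x = a)
  expMoment : ∀ β : ℝ, 0 ≤ β → Integrable (fun x => Real.exp (β * x)) μ

/-- `c(β) = log E exp (β ω)` -/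
noncomputable def c (μ : Measure ℝ) (β : ℝ) : ℝ := Real.log (∫ x, Real.exp (β * x) ∂μ)

/-- `M_n = exp (-n c(β)) Z_n` -/
noncomputable def M (d n : ℕ) (μ : Measure ℝ) (β : ℝ) (ω : Site d → ℝ) : ℝ :=
  Real.exp (-(n * c μ β)) * Z d n β ω

/-- strong disorder: the a.s. limit of `M_n` is a.s. `0` -/
def SD (d : ℕ) (μ : Measure ℝ) [IsProbabilityMeasure μ] (β : ℝ) : Prop :=
  ∀ᵐ ω ∂(env d μ), Tendsto (fun n => M d n μ β ω) atTop (𝓝 0)

/-- the wandering exponent, an infimum in `[-∞, ∞]` -/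
noncomputable def nu (d : ℕ) (μ : Measure ℝ) [IsProbabilityMeasure μ] (β : ℝ) : EReal :=
  sInf {x : EReal | ∃ r : ℝ, 0 < r ∧ x = (r : EReal) ∧
    ∫ ω, liminf (fun n : ℕ => polymer d n β ω
      {s | ∀ i ≤ n, eucl (pos s i) ≤ (n : ℝ) ^ r}) atTop ∂(env d μ) = 1}

/-- the fluctuation exponent, a supremum in `[-∞, ∞]` -/
noncomputable def chi (d : ℕ) (μ : Measure ℝ) [IsProbabilityMeasure μ] (β : ℝ) : EReal :=
  sSup {x : EReal | ∃ r : ℝ, 0 < r ∧ x = (r : EReal) ∧
    ∀ᶠ n : ℕ in atTop, ENNReal.ofReal ((n : ℝ) ^ (2 * r)) ≤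
      evariance (fun ω => Real.log (Z d n β ω)) (env d μ)}

end Pool.Agent.H983R2.Polymer
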