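import Pool.Agent.H983R2.Polymer.Strong

open MeasureTheory ProbabilityTheory Filter Topology
open scoped ENNReal

namespace Pool.Agent.H983R2.Polymer

/-- the uniform law on `[0,1]` -/
noncomputable def unif : Measure ℝ := volume.restrict (Set.Icc (0 : ℝ) 1)

instance : IsProbabilityMeasure unif := by
  constructor
  simp [unif]

/-- the profile `U ↦ - U^{-d}` for `U < 1 - 1/(8d)` and `0` otherwise -/
noncomputable def prof (d : ℕ) (u : ℝ) : ℝ := if u < 1 - 1 / (8 * d) then -((u ^ d)⁻¹) else 0

/-- the heavy tailed nonpositive disorder law -/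
noncomputable def law (d : ℕ) : Measure ℝ := unif.map (prof d)

theorem measurable_prof (d : ℕ) : Measurable (prof d) := by
  unfold prof
  refine Measurable.ite measurableSet_Iio ?_ measurable_const
  exact ((measurable_id.pow_const d).inv).neg

instance (d : ℕ) : IsProbabilityMeasure (law d) :=
  Measure.isProbabilityMeasure_map (measurable_prof d).aemeasurable

theorem unif_ae : ∀ᵐ u ∂unif, 0 < u ∧ u ≤ 1 := by
  unfold unif
  rw [← restrict_Ioc_eq_restrict_Icc]
  filter_upwards [ae_restrict_mem measurableSet_Ioc] with u hu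
  exact ⟨hu.1, hu.2⟩

theorem prof_nonpos {d : ℕ} {u : ℝ} (hu : 0 < u) : prof d u ≤ 0 := by
  unfold prof
  split_ifs
  · have : 0 < (u ^ d)⁻¹ := by positivity
    linarith
  · exact le_refl _

theorem law_nonpos (d : ℕ) : ∀ᵐ x ∂(law d), x ≤ 0 := by
  unfold law
  rw [ae_map_iff (measurable_prof d).aemeasurable measurableSet_Iic]
  filter_upwards [unif_ae] with u hu
  exact prof_nonpos hu.1

theorem eighth {d : ℕ} (hd : 0 < d) : 1 / (8 * d : ℝ) ≤ 1 / 8 := by
  have : (1 : ℝ) ≤ d := by exact_mod_cast hd
  exact one_div_le_one_div_of_le (by norm_num) (by linarith)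

theorem eighth_pos {d : ℕ} (hd : 0 < d) : 0 < 1 / (8 * d : ℝ) := by
  have : (0 : ℝ) < d := by exact_mod_cast hd
  positivity

/-- the tail of the law -/
theorem tail_le {d : ℕ} (hd : 0 < d) {t : ℝ} (ht : 0 < t) :
    law d {x | x < -t} ≤ ENNReal.ofReal (t ^ (-(1 / d : ℝ))) := by
  have hms : MeasurableSet {x : ℝ | x < -t} := measurableSet_Iio
  unfold law
  rw [Measure.map_apply (measurable_prof d) hms]
  have hd' : (d : ℝ) ≠ 0 := by exact_mod_cast hd.ne'
  calc unif (prof d ⁻¹' {x | x < -t}) ≤ unif (Set.Ioo 0 (t ^ (-(1 / d : ℝ)))) := by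
        refine measure_mono_ae ?_
        filter_upwards [unif_ae] with u hu hx
        refine ⟨hu.1, ?_⟩
        have hx' : prof d u < -t := hx
        unfold prof at hx'
        split_ifs at hx' with h
        · have h1 : t < (u ^ d)⁻¹ := by linarith
          have h2 : u ^ d < t⁻¹ := by
            rw [lt_inv_comm₀ ht (by have := hu.1; positivity)] at h1
            exact h1
          have h3 : u = (u ^ d) ^ (1 / d : ℝ) := by
            rw [← Real.rpow_natCast, ← Real.rpow_mul hu.1.le, mul_one_div_cancel hd',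
              Real.rpow_one]
          rw [h3, Real.rpow_neg ht.le, ← Real.inv_rpow ht.le]
          exact Real.rpow_lt_rpow (by have := hu.1; positivity) h2 (by positivity)
        · linarith
    _ ≤ volume (Set.Ioo 0 (t ^ (-(1 / d : ℝ)))) := by
        unfold unif; exact Measure.restrict_apply_le _ _
    _ = ENNReal.ofReal (t ^ (-(1 / d : ℝ))) := by
        rw [Real.volume_Ioo, sub_zero]

/-- lower bound for the tail of the law -/
theorem le_tail {d : ℕ} (hd : 0 < d) {t : ℝ} (ht : (2 : ℝ) ^ d ≤ t) :
    ENNReal.ofReal (t ^ (-(1 / d : ℝ))) ≤ law d {x | x < -t} := by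
  have hms : MeasurableSet {x : ℝ | x < -t} := measurableSet_Iio
  have ht0 : 0 < t := lt_of_lt_of_le (by positivity) ht
  have hd' : (d : ℝ) ≠ 0 := by exact_mod_cast hd.ne'
  have hhalf : t ^ (-(1 / d : ℝ)) ≤ 1 / 2 := by
    rw [Real.rpow_neg ht0.le]
    have : (2 : ℝ) ≤ t ^ (1 / d : ℝ) := by
      calc (2 : ℝ) = ((2 : ℝ) ^ d) ^ (1 / d : ℝ) := by
            rw [← Real.rpow_natCast, ← Real.rpow_mul (by norm_num), mul_one_div_cancel hd',
              Real.rpow_one]
        _ ≤ _ := Real.rpow_le_rpow (by positivity) ht (by positivity)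
    rw [one_div (2 : ℝ)]
    exact inv_anti₀ (by norm_num) this
  unfold law
  rw [Measure.map_apply (measurable_prof d) hms]
  calc ENNReal.ofReal (t ^ (-(1 / d : ℝ))) = volume (Set.Ioo 0 (t ^ (-(1 / d : ℝ)))) := by
        rw [Real.volume_Ioo, sub_zero]
    _ = unif (Set.Ioo 0 (t ^ (-(1 / d : ℝ)))) := by
        unfold unif
        rw [Measure.restrict_apply measurableSet_Ioo, Set.inter_eq_left.2]
        intro u hu
        exact ⟨hu.1.le, by linarith [hu.2]⟩
    _ ≤ unif (prof d ⁻¹' {x | x < -t}) := by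
        refine measure_mono ?_
        intro u hu
        have hu1 : u < 1 - 1 / (8 * d) := by
          have := eighth hd
          have h3 := hu.2
          linarith
        change prof d u < -t
        unfold prof
        rw [if_pos hu1]
        have h2 : u ^ d < t⁻¹ := by
          have h3 : t⁻¹ = (t ^ (-(1 / d : ℝ))) ^ d := by
            rw [← Real.rpow_natCast, ← Real.rpow_mul ht0.le, neg_mul, one_div_mul_cancel hd',
              Real.rpow_neg_one]
          rw [h3]
          exact pow_lt_pow_left₀ hu.2 hu.1.le hd.ne'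
        have h1 : t < (u ^ d)⁻¹ := by
          rw [lt_inv_comm₀ ht0 (by have := hu.1; positivity)]
          exact h2
        linarith

theorem integrable_exp_law (d : ℕ) {β : ℝ} (hβ : 0 ≤ β) :
    Integrable (fun x => Real.exp (β * x)) (law d) := by
  refine Integrable.mono' (integrable_const (1 : ℝ)) (by fun_prop) ?_
  filter_upwards [law_nonpos d] with x hx
  rw [Real.norm_eq_abs, abs_of_pos (Real.exp_pos _)]
  exact Real.exp_le_one_iff.2 (mul_nonpos_of_nonneg_of_nonpos hβ hx)

theorem integral_law (d : ℕ) (β : ℝ) :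
    ∫ x, Real.exp (β * x) ∂(law d) = ∫ u, Real.exp (β * prof d u) ∂unif := by
  unfold law
  exact integral_map (measurable_prof d).aemeasurable (by fun_prop)

theorem integrable_prof (d : ℕ) {β : ℝ} (hβ : 0 ≤ β) :
    Integrable (fun u => Real.exp (β * prof d u)) unif := by
  have := integrable_exp_law d hβ
  unfold law at this
  exact this.comp_measurable (measurable_prof d)

theorem mgf_lower {d : ℕ} (hd : 0 < d) {β : ℝ} (hβ : 0 ≤ β) :
    1 / (8 * d : ℝ) ≤ ∫ x, Real.exp (β * x) ∂(law d) := by
  rw [integral_law]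
  have hp := eighth_pos hd
  have h8 := eighth hd
  have hI : ∫ u, (Set.Icc (1 - 1 / (8 * d : ℝ)) 1).indicator (fun _ => (1 : ℝ)) u ∂unif =
      1 / (8 * d : ℝ) := by
    rw [integral_indicator_const _ measurableSet_Icc, smul_eq_mul, mul_one, measureReal_def]
    unfold unif
    rw [Measure.restrict_apply measurableSet_Icc, Set.inter_eq_left.2, Real.volume_Icc,
      ENNReal.toReal_ofReal (by linarith)]
    · ring
    · intro u hu; exact ⟨by linarith [hu.1], hu.2⟩
  rw [← hI]
  refine integral_mono ?_ (integrable_prof d hβ) ?_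
  · exact (integrable_const (1 : ℝ)).indicator measurableSet_Icc
  · intro u
    simp only [Set.indicator]
    split_ifs with h
    · have : prof d u = 0 := by
        unfold prof
        rw [if_neg (not_lt.2 h.1)]
      rw [this, mul_zero, Real.exp_zero]
    · exact (Real.exp_pos _).le

theorem mgf_upper {d : ℕ} (hd : 0 < d) {β : ℝ} (hβ : 0 ≤ β) :
    ∫ x, Real.exp (β * x) ∂(law d) ≤ 1 / (8 * d : ℝ) + Real.exp (-β) := by
  rw [integral_law]
  have hp := eighth_pos hd
  have h8 := eighth hd
  have hI : ∫ u, (Set.Icc (1 - 1 / (8 * d : ℝ)) 1).indicator (fun _ => (1 : ℝ)) u ∂unif =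
      1 / (8 * d : ℝ) := by
    rw [integral_indicator_const _ measurableSet_Icc, smul_eq_mul, mul_one, measureReal_def]
    unfold unif
    rw [Measure.restrict_apply measurableSet_Icc, Set.inter_eq_left.2, Real.volume_Icc,
      ENNReal.toReal_ofReal (by linarith)]
    · ring
    · intro u hu; exact ⟨by linarith [hu.1], hu.2⟩
  have hI2 : ∫ u, ((Set.Icc (1 - 1 / (8 * d : ℝ)) 1).indicator (fun _ => (1 : ℝ)) u +
      Real.exp (-β)) ∂unif = 1 / (8 * d : ℝ) + Real.exp (-β) := by
    rw [integral_add ((integrable_const (1 : ℝ)).indicator measurableSet_Icc)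
      (integrable_const _), hI, integral_const]
    simp
  rw [← hI2]
  refine integral_mono_ae (integrable_prof d hβ) ?_ ?_
  · exact ((integrable_const (1 : ℝ)).indicator measurableSet_Icc).add (integrable_const _)
  · filter_upwards [unif_ae] with u hu
    simp only [Set.indicator]
    split_ifs with h
    · have h1 : Real.exp (β * prof d u) ≤ 1 :=
        Real.exp_le_one_iff.2 (mul_nonpos_of_nonneg_of_nonpos hβ (prof_nonpos hu.1))
      have := Real.exp_pos (-β)
      linarith
    · have h2 : u < 1 - 1 / (8 * d : ℝ) := by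
        by_contra hcon
        exact h ⟨not_lt.1 hcon, hu.2⟩
      rw [zero_add]
      apply Real.exp_le_exp.2
      unfold prof
      rw [if_pos h2]
      have h3 : 1 ≤ (u ^ d)⁻¹ := by
        rw [one_le_inv₀ (by have := hu.1; positivity)]
        exact pow_le_one₀ hu.1.le hu.2
      nlinarith

theorem law_nonconst {d : ℕ} (hd : 0 < d) (a : ℝ) : ¬ (∀ᵐ x ∂(law d), x = a) := by
  intro h
  -- the mass of `x < -t` is positive for every `t`, and the mass of `0` is positive
  have h1 : ∀ t : ℝ, (2 : ℝ) ^ d ≤ t → a < -t := by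
    intro t ht
    have hpos : law d {x | x < -t} ≠ 0 := by
      have := le_tail hd ht
      have ht0 : 0 < t := lt_of_lt_of_le (by positivity) ht
      have h2 : 0 < ENNReal.ofReal (t ^ (-(1 / d : ℝ))) :=
        ENNReal.ofReal_pos.2 (Real.rpow_pos_of_pos ht0 _)
      exact (lt_of_lt_of_le h2 this).ne'
    by_contra hcon
    apply hpos
    have : ∀ᵐ x ∂(law d), ¬ (x < -t) := by
      filter_upwards [h] with x hx
      rw [hx]; exact hcon
    exact measure_eq_zero_iff_ae_notMem.2 this
  have h2 := h1 (max (2 ^ d) (-a)) (le_max_left _ _)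
  have h3 := le_max_right ((2 : ℝ) ^ d) (-a)
  linarith

theorem isDisorder {d : ℕ} (hd : 0 < d) : IsDisorder (law d) :=
  ⟨law_nonconst hd, fun _ hβ => integrable_exp_law d hβ⟩

/-- strong disorder for explicit large `β` -/
theorem SD_law {d : ℕ} (hd : 0 < d) {β : ℝ} (hβ : 2 * Real.log (8 * d) < β) :
    SD d (law d) β := by
  have hd1 : (1 : ℝ) ≤ d := by exact_mod_cast hd
  have hlog : 0 < Real.log (8 * d) := Real.log_pos (by linarith)
  have hβ0 : 0 < β := by linarith
  have h2d := two_d_pos hd
  refine SD_of_fractional hd (law d) β (integrable_exp_law d hβ0.le)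
    (integrable_exp_law d (by positivity)) ?_
  have hu := mgf_upper hd (β := β / 2) (by positivity)
  have hl := mgf_lower hd (β := β) hβ0.le
  have hs : Real.sqrt (1 / (8 * d)) ≤ Real.sqrt (∫ x, Real.exp (β * x) ∂(law d)) :=
    Real.sqrt_le_sqrt hl
  have hexp : Real.exp (-(β / 2)) < 1 / (8 * d) := by
    rw [Real.exp_neg, one_div]
    apply inv_strictAnti₀ (by positivity)
    calc (8 * d : ℝ) = Real.exp (Real.log (8 * d)) := (Real.exp_log (by positivity)).symm
      _ < Real.exp (β / 2) := Real.exp_lt_exp.2 (by linarith)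
  have hs2 : Real.sqrt (1 / (8 * d)) = Real.sqrt (2 * d) * (1 / (4 * d)) := by
    rw [show (1 / (8 * d) : ℝ) = (2 * d) * (1 / (4 * d)) ^ 2 by field_simp; ring,
      Real.sqrt_mul (by positivity), Real.sqrt_sq (by positivity)]
  refine lt_of_lt_of_le ?_ hs
  rw [hs2]
  refine mul_lt_mul_of_pos_left ?_ (Real.sqrt_pos.2 h2d)
  calc ∫ x, Real.exp (β / 2 * x) ∂(law d) ≤ 1 / (8 * d) + Real.exp (-(β / 2)) := hu
    _ < 1 / (8 * d) + 1 / (8 * d) := by linarith
    _ = 1 / (4 * d) := by field_simp; ring

end Pool.Agent.H983R2.Polymer
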