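import Pool.Agent.H983R2.Polymer.Var

open MeasureTheory ProbabilityTheory Filter Topology
open scoped ENNReal

namespace Pool.Agent.H983R2.Polymer

variable {d : ℕ}

theorem pos_one {n : ℕ} (hn : 0 < n) (s : Fin n → Step d) : pos s 1 = stepVec (s ⟨0, hn⟩) := by
  unfold pos
  rw [Finset.sum_eq_single (⟨0, hn⟩ : Fin n)]
  · simp
  · intro k _ hk
    rw [if_neg]
    intro h
    exact hk (Fin.ext (by simpa using h))
  · intro h; exact absurd (Finset.mem_univ _) h

theorem pos_const {n : ℕ} (u : Step d) {i : ℕ} (hi : i ≤ n) :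
    pos (fun _ : Fin n => u) i = i • stepVec u := by
  unfold pos
  rw [Finset.sum_ite, Finset.sum_const_zero, add_zero, Finset.sum_const]
  congr 1
  have : (Finset.univ.filter fun k : Fin n => (k : ℕ) < i).card = i := by
    rw [Fin.card_filter_val_lt]
    exact min_eq_right hi
  exact this

/-- the sites of the first level -/
def first (u : Step d) : Site d := (1, stepVec u)

theorem first_injective : Function.Injective (first (d := d)) := fun u v h =>
  stepVec_injective (Prod.ext_iff.1 h).2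

/-- sites on the straight paths -/
def straight {n : ℕ} (f : Step d → Fin n) (u : Step d) : Site d :=
  ((f u : ℕ) + 1, ((f u : ℕ) + 1) • stepVec u)

theorem straight_injective {n : ℕ} (f : Step d → Fin n) : Function.Injective (straight f) := by
  intro u v h
  have h1 : ((f u : ℕ) + 1) = (f v : ℕ) + 1 := (Prod.ext_iff.1 h).1
  have h2 : ((f u : ℕ) + 1) • stepVec u = ((f v : ℕ) + 1) • stepVec v := (Prod.ext_iff.1 h).2
  rw [← h1] at h2
  apply stepVec_injective
  funext j
  have h3 := congrFun h2 j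
  simp only [Pi.smul_apply, nsmul_eq_mul] at h3
  exact mul_left_cancel₀ (by positivity) h3

theorem logZ_le (hd : 0 < d) {n : ℕ} (hn : 0 < n) {β : ℝ} (hβ : 0 ≤ β) {ω : Site d → ℝ}
    (hω : ∀ a, ω a ≤ 0) : Real.log (Z d n β ω) ≤ -(β * T hd first ω) := by
  have h2d := two_d_pos hd
  have hen : ∀ s : Fin n → Step d, energy β ω s ≤ -(β * T hd first ω) := by
    intro s
    unfold energy
    rw [← mul_neg]
    refine mul_le_mul_of_nonneg_left ?_ hβ
    have h1 : ∑ i ∈ Finset.Icc 1 n, ω (i, pos s i) ≤ ω (1, pos s 1) := by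
      rw [← Finset.add_sum_erase _ _ (Finset.mem_Icc.2 ⟨le_refl 1, hn⟩)]
      have : ∑ i ∈ (Finset.Icc 1 n).erase 1, ω (i, pos s i) ≤ 0 :=
        Finset.sum_nonpos fun i _ => hω _
      linarith
    refine h1.trans ?_
    unfold T
    rw [neg_neg, pos_one hn]
    exact Finset.le_sup' (fun u => ω (first u)) (Finset.mem_univ (s ⟨0, hn⟩))
  have hZ : Z d n β ω ≤ Real.exp (-(β * T hd first ω)) := by
    unfold Z
    rw [div_le_iff₀ (by positivity)]
    calc ∑ s : Fin n → Step d, Real.exp (energy β ω s)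
        ≤ ∑ _s : Fin n → Step d, Real.exp (-(β * T hd first ω)) :=
          Finset.sum_le_sum fun s _ => Real.exp_le_exp.2 (hen s)
      _ = _ := by
          rw [Finset.sum_const, card_paths, nsmul_eq_mul, mul_comm]
          push_cast
          ring
  calc Real.log (Z d n β ω) ≤ Real.log (Real.exp (-(β * T hd first ω))) :=
        Real.log_le_log (Z_pos hd n β ω) hZ
    _ = _ := Real.log_exp _

theorem le_logZ (hd : 0 < d) {n : ℕ} (hn : 0 < n) {β : ℝ} (hβ : 0 ≤ β) {ω : Site d → ℝ}
    (hω : ∀ a, ω a ≤ 0) :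
    -(n * Real.log (2 * d) + β * (n * ∑ f : Step d → Fin n, T hd (straight f) ω)) ≤
      Real.log (Z d n β ω) := by
  classical
  have h2d := two_d_pos hd
  -- choose the worst level on every straight path
  have hch : ∀ u : Step d, ∃ i : Fin n, ∀ j ∈ Finset.Icc 1 n,
      ω ((i : ℕ) + 1, ((i : ℕ) + 1) • stepVec u) ≤ ω (j, j • stepVec u) := by
    intro u
    obtain ⟨i, hi, hmin⟩ := Finset.exists_min_image (Finset.Icc 1 n)
      (fun j => ω (j, j • stepVec u)) ⟨1, Finset.mem_Icc.2 ⟨le_refl 1, hn⟩⟩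
    rw [Finset.mem_Icc] at hi
    refine ⟨⟨i - 1, by omega⟩, fun j hj => ?_⟩
    have h1 : ((⟨i - 1, by omega⟩ : Fin n) : ℕ) + 1 = i := by
      simp only; omega
    rw [h1]
    exact hmin j hj
  choose f hf using hch
  obtain ⟨u, -, hu⟩ := Finset.exists_mem_eq_sup' (steps_nonempty hd)
    (fun u => ω (straight f u))
  have hT : T hd (straight f) ω = - ω (straight f u) := by
    unfold T; rw [hu]
  have hen : -(β * (n * T hd (straight f) ω)) ≤ energy β ω (fun _ : Fin n => u) := by
    unfold energy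
    rw [← mul_neg]
    refine mul_le_mul_of_nonneg_left ?_ hβ
    rw [hT, mul_neg, neg_neg]
    calc (n : ℝ) * ω (straight f u) = ∑ _j ∈ Finset.Icc 1 n, ω (straight f u) := by
          rw [Finset.sum_const, Nat.card_Icc, nsmul_eq_mul]; simp
      _ ≤ ∑ j ∈ Finset.Icc 1 n, ω (j, pos (fun _ : Fin n => u) j) := by
          refine Finset.sum_le_sum fun j hj => ?_
          rw [pos_const u (Finset.mem_Icc.1 hj).2]
          exact hf u j hj
  have hsum : T hd (straight f) ω ≤ ∑ f : Step d → Fin n, T hd (straight f) ω :=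
    Finset.single_le_sum (fun g _ => T_nonneg hd (straight g) hω) (Finset.mem_univ f)
  have hZ : Real.exp (-(β * (n * T hd (straight f) ω))) / (2 * d) ^ n ≤ Z d n β ω := by
    unfold Z
    refine div_le_div_of_nonneg_right ?_ (by positivity)
    exact (Real.exp_le_exp.2 hen).trans
      (Finset.single_le_sum (f := fun s : Fin n → Step d => Real.exp (energy β ω s))
        (fun s _ => (Real.exp_pos _).le) (Finset.mem_univ (fun _ : Fin n => u)))
  have h3 := Real.log_le_log (by positivity) hZ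
  rw [Real.log_div (Real.exp_pos _).ne' (by positivity), Real.log_exp, Real.log_pow] at h3
  refine le_trans ?_ h3
  have h4 : β * (n * T hd (straight f) ω) ≤
      β * (n * ∑ f : Step d → Fin n, T hd (straight f) ω) := by
    refine mul_le_mul_of_nonneg_left ?_ hβ
    exact mul_le_mul_of_nonneg_left hsum (Nat.cast_nonneg n)
  linarith

theorem integrable_logZ (hd : 0 < d) {n : ℕ} (hn : 0 < n) {β : ℝ} (hβ : 0 ≤ β) :
    Integrable (fun ω => Real.log (Z d n β ω)) (env d (law d)) := by
  have hI : Integrable (fun ω => n * Real.log (2 * d) +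
      β * (n * ∑ f : Step d → Fin n, T hd (straight f) ω)) (env d (law d)) := by
    refine (integrable_const _).add (Integrable.const_mul (Integrable.const_mul ?_ _) _)
    exact integrable_finsetSum _ fun f _ => integrable_T hd _ (straight_injective f)
  refine Integrable.mono' hI (measurable_Z n β).log.aestronglyMeasurable ?_
  filter_upwards [env_nonpos d] with ω hω
  have h1 := le_logZ hd hn hβ hω
  have h2 := logZ_le hd hn hβ hω
  have h3 := T_nonneg hd first hω
  have h4 : Real.log (Z d n β ω) ≤ 0 := by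
    have : 0 ≤ β * T hd first ω := mul_nonneg hβ h3
    linarith
  rw [Real.norm_eq_abs, abs_of_nonpos h4]
  linarith

theorem not_memLp_logZ (hd : 0 < d) {n : ℕ} (hn : 0 < n) {β : ℝ} (hβ : 0 < β) :
    ¬ MemLp (fun ω => Real.log (Z d n β ω)) 2 (env d (law d)) := by
  intro h
  refine not_memLp_T hd first first_injective ?_
  refine MemLp.mono (h.const_mul (1 / β)) (measurable_T hd first).aestronglyMeasurable ?_
  filter_upwards [env_nonpos d] with ω hω
  have h2 := logZ_le hd hn hβ.le hω
  have h3 := T_nonneg hd first hω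
  have h4 : Real.log (Z d n β ω) ≤ 0 := by
    have : 0 ≤ β * T hd first ω := mul_nonneg hβ.le h3
    linarith
  rw [Real.norm_eq_abs, Real.norm_eq_abs, abs_mul, abs_of_nonneg h3, abs_of_nonpos h4,
    abs_of_pos (by positivity : 0 < 1 / β), one_div, ← div_eq_inv_mul, le_div_iff₀ hβ]
  linarith

theorem evariance_logZ (hd : 0 < d) {n : ℕ} (hn : 0 < n) {β : ℝ} (hβ : 0 < β) :
    evariance (fun ω => Real.log (Z d n β ω)) (env d (law d)) = ∞ :=
  evariance_eq_top (measurable_Z n β).log.aestronglyMeasurable (not_memLp_logZ hd hn hβ)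

theorem chi_law (hd : 0 < d) {β : ℝ} (hβ : 0 < β) : chi d (law d) β = ⊤ := by
  unfold chi
  rw [sSup_eq_top]
  intro b hb
  obtain ⟨r, hr0, hr⟩ : ∃ r : ℝ, 0 < r ∧ b < (r : EReal) := by
    obtain ⟨r, hr⟩ := EReal.lt_iff_exists_real_btwn.1 hb
    refine ⟨max r 1, lt_of_lt_of_le one_pos (le_max_right _ _), ?_⟩
    refine lt_of_lt_of_le hr.1 ?_
    exact_mod_cast le_max_left r 1
  refine ⟨r, ⟨r, hr0, rfl, ?_⟩, hr⟩
  filter_upwards [eventually_gt_atTop 0] with n hn
  rw [evariance_logZ hd hn hβ]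
  exact le_top

theorem abs_pos_le {n : ℕ} (s : Fin n → Step d) (i : ℕ) :
    ∑ j, |(pos s i j : ℝ)| ≤ i := by
  have h1 : ∀ j, |(pos s i j : ℝ)| ≤ ∑ k : Fin n, if k.val < i then |((stepVec (s k) j : ℤ) : ℝ)|
      else 0 := by
    intro j
    unfold pos
    rw [Finset.sum_apply]
    push_cast
    refine (Finset.abs_sum_le_sum_abs _ _).trans (Finset.sum_le_sum fun k _ => ?_)
    split_ifs <;> simp
  calc ∑ j, |(pos s i j : ℝ)| ≤ ∑ j, ∑ k : Fin n, (if k.val < i then
        |((stepVec (s k) j : ℤ) : ℝ)| else 0) := Finset.sum_le_sum fun j _ => h1 j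
    _ = ∑ k : Fin n, ∑ j, (if k.val < i then |((stepVec (s k) j : ℤ) : ℝ)| else 0) :=
        Finset.sum_comm
    _ = ∑ k : Fin n, (if k.val < i then 1 else 0) := by
        refine Finset.sum_congr rfl fun k _ => ?_
        split_ifs with h
        · rw [Finset.sum_eq_single (s k).1]
          · unfold stepVec
            rw [Pi.single_eq_same]
            split_ifs <;> simp
          · intro j _ hj
            unfold stepVec
            rw [Pi.single_eq_of_ne hj]
            simp
          · intro h; exact absurd (Finset.mem_univ _) h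
        · simp
    _ ≤ i := by
        rw [Finset.sum_boole]
        have : (Finset.univ.filter fun k : Fin n => (k : ℕ) < i).card ≤ i := by
          rw [Fin.card_filter_val_lt]
          exact min_le_right _ _
        exact_mod_cast this

theorem eucl_pos_le {n : ℕ} (s : Fin n → Step d) (i : ℕ) : eucl (pos s i) ≤ i := by
  unfold eucl
  refine Real.sqrt_le_iff.2 ⟨Nat.cast_nonneg i, ?_⟩
  calc ∑ j, ((pos s i j : ℤ) : ℝ) ^ 2 = ∑ j, |((pos s i j : ℤ) : ℝ)| ^ 2 :=
        Finset.sum_congr rfl fun j _ => (sq_abs _).symm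
    _ ≤ (∑ j, |((pos s i j : ℤ) : ℝ)|) ^ 2 :=
        Finset.sum_sq_le_sq_sum_of_nonneg fun j _ => abs_nonneg _
    _ ≤ (i : ℝ) ^ 2 := pow_le_pow_left₀ (Finset.sum_nonneg fun j _ => abs_nonneg _)
        (abs_pos_le s i) 2

theorem nu_le_one (hd : 0 < d) (μ : Measure ℝ) [IsProbabilityMeasure μ] (β : ℝ) :
    nu d μ β ≤ 1 := by
  unfold nu
  refine sInf_le ⟨1, one_pos, by norm_num, ?_⟩
  have h1 : ∀ (n : ℕ) (ω : Site d → ℝ), polymer d n β ω
      {s | ∀ i ≤ n, eucl (pos s i) ≤ (n : ℝ) ^ (1 : ℝ)} = 1 := by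
    intro n ω
    unfold polymer
    have hpos : 0 < ∑ s : Fin n → Step d, Real.exp (energy β ω s) :=
      Finset.sum_pos (fun s _ => Real.exp_pos _) ⟨fun _ => (⟨0, hd⟩, true), Finset.mem_univ _⟩
    rw [div_eq_one_iff_eq hpos.ne']
    refine Finset.sum_congr rfl fun s _ => ?_
    rw [if_pos]
    intro i hi
    rw [Real.rpow_one]
    refine (eucl_pos_le s i).trans ?_
    exact_mod_cast hi
  simp_rw [h1]
  simp

/-- the relation `χ = 2ν - 1` fails as soon as `χ = ∞` -/
theorem chi_ne (hd : 0 < d) {β : ℝ} (hβ : 0 < β) :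
    chi d (law d) β ≠ 2 * nu d (law d) β - 1 := by
  rw [chi_law hd hβ]
  have h := nu_le_one hd (law d) β
  intro hcon
  have h2 : 2 * nu d (law d) β ≤ 2 := by
    calc 2 * nu d (law d) β ≤ 2 * 1 := mul_le_mul_of_nonneg_left h (by norm_num)
      _ = 2 := mul_one 2
  have h3 : 2 * nu d (law d) β - 1 ≤ 2 - 1 := EReal.sub_le_sub h2 (le_refl 1)
  rw [← hcon] at h3
  have h4 : (2 : EReal) - 1 < ⊤ := by
    have : (2 : EReal) - 1 = ((2 - 1 : ℝ) : EReal) := by norm_cast
    rw [this]
    exact EReal.coe_lt_top _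
  exact absurd (top_le_iff.1 h3) h4.ne

end Pool.Agent.H983R2.Polymer
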