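import Pool.Agent.H983R2.Polymer.Defs

open MeasureTheory ProbabilityTheory Filter Topology
open scoped ENNReal

namespace Pool.Agent.H983R2.Polymer

variable {d : ℕ}

instance (μ : Measure ℝ) [IsProbabilityMeasure μ] : IsProbabilityMeasure (env d μ) := by
  unfold env; infer_instance

theorem card_paths (d n : ℕ) : (Finset.univ : Finset (Fin n → Step d)).card = (2 * d) ^ n := by
  rw [Finset.card_univ, Fintype.card_fun, Fintype.card_prod, Fintype.card_fin, Fintype.card_fin,
    Fintype.card_bool, mul_comm]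

theorem measurable_energy {n : ℕ} (β : ℝ) (s : Fin n → Step d) :
    Measurable (fun ω : Site d → ℝ => energy β ω s) := by
  unfold energy
  fun_prop

theorem measurable_Z (n : ℕ) (β : ℝ) : Measurable (fun ω : Site d → ℝ => Z d n β ω) := by
  unfold Z
  refine Measurable.div_const ?_ _
  refine Finset.measurable_fun_sum _ fun s _ => ?_
  exact (measurable_energy β s).exp

theorem two_d_pos (hd : 0 < d) : (0 : ℝ) < 2 * d := by
  have : (0 : ℝ) < d := by exact_mod_cast hd
  positivity

theorem Z_pos (hd : 0 < d) (n : ℕ) (β : ℝ) (ω : Site d → ℝ) : 0 < Z d n β ω := by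
  unfold Z
  have h2 := two_d_pos hd
  refine div_pos (Finset.sum_pos (fun s _ => Real.exp_pos _) ?_) (by positivity)
  exact ⟨fun _ => (⟨0, hd⟩, true), Finset.mem_univ _⟩

theorem map_eval (μ : Measure ℝ) [IsProbabilityMeasure μ] (a : Site d) :
    (env d μ).map (fun ω => ω a) = μ := by
  unfold env
  exact Measure.infinitePi_map_eval (fun _ : Site d => μ) a

/-- exponential moment of the energy of a path -/
theorem exp_energy (μ : Measure ℝ) [IsProbabilityMeasure μ] {n : ℕ} (t : ℝ)
    (ht : Integrable (fun x => Real.exp (t * x)) μ) (s : Fin n → Step d) :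
    Integrable (fun ω => Real.exp (energy t ω s)) (env d μ) ∧
    ∫ ω, Real.exp (energy t ω s) ∂(env d μ) = (∫ x, Real.exp (t * x) ∂μ) ^ n := by
  have hindep0 : iIndepFun (fun (a : Site d) (ω : Site d → ℝ) => ω a) (env d μ) := by
    unfold env
    exact iIndepFun_infinitePi (P := fun _ : Site d => μ) (X := fun _ x => x)
      (fun _ => measurable_id)
  have hinj : Function.Injective (fun i : ℕ => ((i, pos s i) : Site d)) := by
    intro i j h
    exact (Prod.ext_iff.1 h).1
  have hindep : iIndepFun (fun (i : ℕ) (ω : Site d → ℝ) => ω (i, pos s i)) (env d μ) :=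
    hindep0.precomp hinj
  have hmeas : ∀ i : ℕ, Measurable (fun ω : Site d → ℝ => ω (i, pos s i)) := fun i =>
    measurable_pi_apply _
  have hX : ∀ i : ℕ, Integrable (fun ω : Site d → ℝ => Real.exp (t * ω (i, pos s i))) (env d μ) := by
    intro i
    have h1 : Integrable (fun x => Real.exp (t * x)) ((env d μ).map (fun ω => ω (i, pos s i))) := by
      rw [map_eval]; exact ht
    exact h1.comp_measurable (hmeas i)
  have hen : ∀ ω : Site d → ℝ, energy t ω s =
      t * (∑ i ∈ Finset.Icc 1 n, fun ω : Site d → ℝ => ω (i, pos s i)) ω := by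
    intro ω
    simp [energy, Finset.sum_apply]
  constructor
  · simp_rw [hen]
    exact hindep.integrable_exp_mul_sum hmeas (fun i _ => hX i)
  · simp_rw [hen]
    have h := hindep.mgf_sum (t := t) hmeas (Finset.Icc 1 n)
    unfold mgf at h
    rw [h]
    have h2 : ∀ i ∈ Finset.Icc 1 n, ∫ ω : Site d → ℝ, Real.exp (t * ω (i, pos s i)) ∂(env d μ)
        = ∫ x, Real.exp (t * x) ∂μ := by
      intro i _
      have h3 := integral_map (μ := env d μ) (φ := fun ω => ω (i, pos s i))
        (hmeas i).aemeasurable (f := fun x : ℝ => Real.exp (t * x))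
        (by fun_prop)
      rw [map_eval] at h3
      exact h3.symm
    rw [Finset.prod_congr rfl h2, Finset.prod_const, Nat.card_Icc]
    simp

theorem sqrt_sum_le {ι : Type*} (s : Finset ι) (f : ι → ℝ) (hf : ∀ i ∈ s, 0 ≤ f i) :
    Real.sqrt (∑ i ∈ s, f i) ≤ ∑ i ∈ s, Real.sqrt (f i) := by
  rw [Real.sqrt_le_left (Finset.sum_nonneg fun i _ => Real.sqrt_nonneg _)]
  calc ∑ i ∈ s, f i = ∑ i ∈ s, (Real.sqrt (f i)) ^ 2 :=
        Finset.sum_congr rfl fun i hi => (Real.sq_sqrt (hf i hi)).symm
    _ ≤ (∑ i ∈ s, Real.sqrt (f i)) ^ 2 :=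
        Finset.sum_sq_le_sq_sum_of_nonneg fun i _ => Real.sqrt_nonneg _

/-- fractional moment criterion for strong disorder -/
theorem SD_of_fractional (hd : 0 < d) (μ : Measure ℝ) [IsProbabilityMeasure μ] (β : ℝ)
    (h1 : Integrable (fun x => Real.exp (β * x)) μ)
    (h2 : Integrable (fun x => Real.exp (β / 2 * x)) μ)
    (hr : Real.sqrt (2 * d) * (∫ x, Real.exp (β / 2 * x) ∂μ) <
      Real.sqrt (∫ x, Real.exp (β * x) ∂μ)) : SD d μ β := by
  set m1 := ∫ x, Real.exp (β / 2 * x) ∂μ with hm1
  set m2 := ∫ x, Real.exp (β * x) ∂μ with hm2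
  have hm2pos : 0 < m2 := mgf_pos (X := fun x : ℝ => x) h1
  have hm1pos : 0 < m1 := mgf_pos (X := fun x : ℝ => x) h2
  have h2d := two_d_pos hd
  have hs2 : 0 < Real.sqrt m2 := Real.sqrt_pos.2 hm2pos
  have hsd : 0 < Real.sqrt (2 * d) := Real.sqrt_pos.2 h2d
  set r : ℝ := Real.sqrt (2 * d) * m1 / Real.sqrt m2 with hrdef
  have hr1 : r < 1 := (div_lt_one hs2).2 hr
  have hr0 : 0 ≤ r := by positivity
  have hMnonneg : ∀ n ω, 0 ≤ M d n μ β ω := fun n ω =>
    mul_nonneg (Real.exp_pos _).le (Z_pos hd n β ω).le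
  -- pointwise bound
  have hpt : ∀ (n : ℕ) (ω : Site d → ℝ), Real.sqrt (M d n μ β ω) ≤
      (1 / (Real.sqrt m2 * Real.sqrt (2 * d))) ^ n *
        ∑ s : Fin n → Step d, Real.exp (energy (β / 2) ω s) := by
    intro n ω
    have hc : Real.exp (-(n * c μ β)) = (1 / m2) ^ n := by
      unfold c
      rw [← hm2, Real.exp_neg, mul_comm, Real.exp_mul, Real.exp_log hm2pos, Real.rpow_natCast,
        one_div, inv_pow]
    have hM : M d n μ β ω = (1 / (m2 * (2 * d))) ^ n *
        ∑ s : Fin n → Step d, Real.exp (energy β ω s) := by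
      unfold M Z
      rw [hc, one_div_pow, one_div_pow, mul_pow m2 (2 * (d : ℝ)) n]
      field_simp
    rw [hM, Real.sqrt_mul (by positivity)]
    have e1 : Real.sqrt ((1 / (m2 * (2 * d))) ^ n) =
        (1 / (Real.sqrt m2 * Real.sqrt (2 * d))) ^ n := by
      have e2 : (1 / (m2 * (2 * d)) : ℝ) ^ n =
          ((1 / (Real.sqrt m2 * Real.sqrt (2 * d))) ^ n) ^ 2 := by
        rw [← pow_mul, mul_comm n 2, pow_mul]
        congr 1
        rw [div_pow, one_pow, mul_pow, Real.sq_sqrt hm2pos.le, Real.sq_sqrt h2d.le]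
      rw [e2]
      exact Real.sqrt_sq (by positivity)
    rw [e1]
    refine mul_le_mul_of_nonneg_left ?_ (by positivity)
    refine (sqrt_sum_le _ _ fun s _ => (Real.exp_pos _).le).trans (le_of_eq ?_)
    refine Finset.sum_congr rfl fun s _ => ?_
    rw [← Real.exp_half]
    congr 1
    unfold energy
    ring
  have hint : ∀ n : ℕ, ∫⁻ ω, ENNReal.ofReal (Real.sqrt (M d n μ β ω)) ∂(env d μ) ≤
      ENNReal.ofReal (r ^ n) := by
    intro n
    have hI : Integrable (fun ω => (1 / (Real.sqrt m2 * Real.sqrt (2 * d))) ^ n *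
        ∑ s : Fin n → Step d, Real.exp (energy (β / 2) ω s)) (env d μ) := by
      refine Integrable.const_mul ?_ _
      exact integrable_finsetSum _ fun s _ => (exp_energy μ (β / 2) h2 s).1
    calc ∫⁻ ω, ENNReal.ofReal (Real.sqrt (M d n μ β ω)) ∂(env d μ)
        ≤ ∫⁻ ω, ENNReal.ofReal ((1 / (Real.sqrt m2 * Real.sqrt (2 * d))) ^ n *
        ∑ s : Fin n → Step d, Real.exp (energy (β / 2) ω s)) ∂(env d μ) :=
          lintegral_mono fun ω => ENNReal.ofReal_le_ofReal (hpt n ω)
      _ = ENNReal.ofReal (∫ ω, ((1 / (Real.sqrt m2 * Real.sqrt (2 * d))) ^ n *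
        ∑ s : Fin n → Step d, Real.exp (energy (β / 2) ω s)) ∂(env d μ)) := by
          rw [ofReal_integral_eq_lintegral_ofReal hI]
          exact Eventually.of_forall fun ω => by
            have : 0 ≤ ∑ s : Fin n → Step d, Real.exp (energy (β / 2) ω s) :=
              Finset.sum_nonneg fun s _ => (Real.exp_pos _).le
            positivity
      _ = ENNReal.ofReal (r ^ n) := by
          congr 1
          rw [integral_const_mul, integral_finsetSum _ fun s _ => (exp_energy μ (β / 2) h2 s).1,
            Finset.sum_congr rfl fun s _ => (exp_energy μ (β / 2) h2 s).2, Finset.sum_const,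
            card_paths, nsmul_eq_mul, ← hm1]
          push_cast
          rw [← mul_pow, ← mul_pow]
          congr 1
          rw [hrdef]
          have : Real.sqrt (2 * d) * Real.sqrt (2 * d) = 2 * d := Real.mul_self_sqrt h2d.le
          field_simp
          nlinarith
  have hsum : ∫⁻ ω, ∑' n, ENNReal.ofReal (Real.sqrt (M d n μ β ω)) ∂(env d μ) ≠ ∞ := by
    rw [lintegral_tsum]
    · refine ne_top_of_le_ne_top ?_ (ENNReal.tsum_le_tsum hint)
      have : ∀ n : ℕ, ENNReal.ofReal (r ^ n) = (ENNReal.ofReal r) ^ n := fun n =>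
        ENNReal.ofReal_pow hr0 n
      simp_rw [this]
      rw [ENNReal.tsum_geometric]
      have h1' : ENNReal.ofReal r < 1 := by
        rw [← ENNReal.ofReal_one]; exact (ENNReal.ofReal_lt_ofReal_iff one_pos).2 hr1
      exact ENNReal.inv_ne_top.2 (tsub_pos_of_lt h1').ne'
    · intro n
      have : Measurable (fun ω : Site d → ℝ => M d n μ β ω) := by
        unfold M
        exact (measurable_Z n β).const_mul _
      exact this.sqrt.ennreal_ofReal.aemeasurable
  have hae : ∀ᵐ ω ∂(env d μ), ∑' n, ENNReal.ofReal (Real.sqrt (M d n μ β ω)) < ∞ := by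
    refine ae_lt_top' ?_ hsum
    refine AEMeasurable.tsum fun n => ?_
    have : Measurable (fun ω : Site d → ℝ => M d n μ β ω) := by
      unfold M
      exact (measurable_Z n β).const_mul _
    exact this.sqrt.ennreal_ofReal.aemeasurable
  unfold SD
  filter_upwards [hae] with ω hω
  have h0 : Tendsto (fun n => ENNReal.ofReal (Real.sqrt (M d n μ β ω))) atTop (𝓝 0) := by
    have := ENNReal.tendsto_cofinite_zero_of_tsum_ne_top hω.ne
    rwa [Nat.cofinite_eq_atTop] at this
  have h3 : Tendsto (fun n => Real.sqrt (M d n μ β ω)) atTop (𝓝 0) := by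
    have h4 := (ENNReal.tendsto_toReal ENNReal.zero_ne_top).comp h0
    simp only [ENNReal.toReal_zero] at h4
    refine h4.congr fun n => ?_
    simp [ENNReal.toReal_ofReal (Real.sqrt_nonneg _)]
  have h5 := h3.mul h3
  simp only [mul_zero] at h5
  refine h5.congr fun n => Real.mul_self_sqrt (hMnonneg n ω)

end Pool.Agent.H983R2.Polymer
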