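import Pool.Agent.H983R2.Polymer.Law

open MeasureTheory ProbabilityTheory Filter Topology
open scoped ENNReal

namespace Pool.Agent.H983R2.Polymer

variable {d : ℕ}

theorem stepVec_injective : Function.Injective (stepVec (d := d)) := by
  intro u v h
  have h1 := congrFun h u.1
  unfold stepVec at h1
  rw [Pi.single_eq_same] at h1
  have huv : u.1 = v.1 := by
    by_contra hne
    rw [Pi.single_eq_of_ne hne] at h1
    split_ifs at h1 <;> omega
  rw [huv, Pi.single_eq_same] at h1
  have h2 : u.2 = v.2 := by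
    cases hu : u.2 <;> cases hv : v.2 <;> simp_all
  exact Prod.ext huv h2

theorem steps_nonempty (hd : 0 < d) : (Finset.univ : Finset (Step d)).Nonempty :=
  ⟨(⟨0, hd⟩, true), Finset.mem_univ _⟩

/-- the minimum of `-ω` over the sites `a u` -/
noncomputable def T (hd : 0 < d) (a : Step d → Site d) (ω : Site d → ℝ) : ℝ :=
  - Finset.univ.sup' (steps_nonempty hd) (fun u => ω (a u))

theorem measurable_T (hd : 0 < d) (a : Step d → Site d) : Measurable (T hd a) := by
  unfold T
  have : (fun ω : Site d → ℝ => Finset.univ.sup' (steps_nonempty hd) (fun u => ω (a u))) =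
      Finset.univ.sup' (steps_nonempty hd) (fun u => fun ω : Site d → ℝ => ω (a u)) := by
    ext ω
    rw [Finset.sup'_apply]
  refine Measurable.neg ?_
  rw [this]
  exact Finset.measurable_sup' _ fun u _ => measurable_pi_apply _

theorem T_tail (hd : 0 < d) (a : Step d → Site d) (ha : Function.Injective a) (t : ℝ) :
    env d (law d) {ω | t < T hd a ω} = (law d {x | x < -t}) ^ (2 * d) := by
  classical
  have h1 : {ω | t < T hd a ω} =
      Set.pi (↑(Finset.univ.image a) : Set (Site d)) (fun _ => {x : ℝ | x < -t}) := by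
    ext ω
    have h2 : t < T hd a ω ↔ ∀ u, ω (a u) < -t := by
      unfold T
      rw [lt_neg, Finset.sup'_lt_iff]
      simp
    simp only [Set.mem_pi, Finset.coe_image, Finset.coe_univ, Set.image_univ, Set.mem_range,
      forall_exists_index, forall_apply_eq_imp_iff]
    exact h2
  rw [h1]
  unfold env
  have h3 := Measure.infinitePi_pi (μ := fun _ : Site d => law d)
    (s := Finset.univ.image a) (t := fun _ => {x : ℝ | x < -t}) (fun _ _ => measurableSet_Iio)
  rw [h3, Finset.prod_const,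
    Finset.card_image_of_injective _ ha, Finset.card_univ, Fintype.card_prod, Fintype.card_fin,
    Fintype.card_bool, mul_comm]

theorem rpow_calc (hd : 0 < d) {t : ℝ} (ht : 0 < t) :
    (ENNReal.ofReal (t ^ (-(1 / d : ℝ)))) ^ (2 * d) = ENNReal.ofReal ((t ^ 2)⁻¹) := by
  have hd' : (d : ℝ) ≠ 0 := by exact_mod_cast hd.ne'
  rw [← ENNReal.ofReal_pow (Real.rpow_nonneg ht.le _)]
  congr 1
  rw [← Real.rpow_natCast, ← Real.rpow_mul ht.le]
  push_cast
  rw [show (-(1 / d : ℝ)) * (2 * d) = -2 by field_simp, Real.rpow_neg ht.le]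
  norm_num

theorem T_tail_le (hd : 0 < d) (a : Step d → Site d) (ha : Function.Injective a) {t : ℝ}
    (ht : 0 < t) : env d (law d) {ω | t < T hd a ω} ≤ ENNReal.ofReal ((t ^ 2)⁻¹) := by
  rw [T_tail hd a ha, ← rpow_calc hd ht]
  exact pow_le_pow_left₀ (by positivity) (tail_le hd ht) _

theorem le_T_tail (hd : 0 < d) (a : Step d → Site d) (ha : Function.Injective a) {t : ℝ}
    (ht : (2 : ℝ) ^ d ≤ t) : ENNReal.ofReal ((t ^ 2)⁻¹) ≤ env d (law d) {ω | t < T hd a ω} := by
  have ht0 : 0 < t := lt_of_lt_of_le (by positivity) ht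
  rw [T_tail hd a ha, ← rpow_calc hd ht0]
  exact pow_le_pow_left₀ (by positivity) (le_tail hd ht) _

theorem env_nonpos (d : ℕ) : ∀ᵐ ω ∂(env d (law d)), ∀ a : Site d, ω a ≤ 0 := by
  rw [ae_all_iff]
  intro a
  have h := law_nonpos d
  rw [← map_eval (d := d) (law d) a] at h
  exact ae_of_ae_map (f := fun ω : Site d → ℝ => ω a) (measurable_pi_apply a).aemeasurable h

theorem T_nonneg (hd : 0 < d) (a : Step d → Site d) {ω : Site d → ℝ} (h : ∀ a, ω a ≤ 0) :
    0 ≤ T hd a ω := by
  unfold T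
  rw [Left.nonneg_neg_iff, Finset.sup'_le_iff]
  intro u _
  exact h (a u)

theorem integrable_T (hd : 0 < d) (a : Step d → Site d) (ha : Function.Injective a) :
    Integrable (T hd a) (env d (law d)) := by
  refine ⟨(measurable_T hd a).aestronglyMeasurable, ?_⟩
  rw [hasFiniteIntegral_iff_ofReal
    ((env_nonpos d).mono fun ω hω => T_nonneg hd a hω)]
  have hpt : ∀ x : ℝ, ENNReal.ofReal x ≤ ∑' k : ℕ, if (k : ℝ) < x then (1 : ℝ≥0∞) else 0 := by
    intro x
    calc ENNReal.ofReal x ≤ ENNReal.ofReal (⌈x⌉₊ : ℝ) :=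
          ENNReal.ofReal_le_ofReal (Nat.le_ceil x)
      _ = ∑ k ∈ Finset.range ⌈x⌉₊, (1 : ℝ≥0∞) := by simp
      _ = ∑ k ∈ Finset.range ⌈x⌉₊, (if (k : ℝ) < x then (1 : ℝ≥0∞) else 0) := by
          refine Finset.sum_congr rfl fun k hk => ?_
          rw [if_pos (Nat.lt_ceil.1 (Finset.mem_range.1 hk))]
      _ ≤ _ := ENNReal.sum_le_tsum _
  calc ∫⁻ ω, ENNReal.ofReal (T hd a ω) ∂(env d (law d))
      ≤ ∫⁻ ω, ∑' k : ℕ, (if (k : ℝ) < T hd a ω then (1 : ℝ≥0∞) else 0) ∂(env d (law d)) :=
        lintegral_mono fun ω => hpt _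
    _ = ∑' k : ℕ, ∫⁻ ω, (if (k : ℝ) < T hd a ω then (1 : ℝ≥0∞) else 0) ∂(env d (law d)) := by
        rw [lintegral_tsum]
        intro k
        exact (Measurable.ite (measurableSet_lt measurable_const (measurable_T hd a))
          measurable_const measurable_const).aemeasurable
    _ = ∑' k : ℕ, env d (law d) {ω | (k : ℝ) < T hd a ω} := by
        refine tsum_congr fun k => ?_
        have hms : MeasurableSet {ω | (k : ℝ) < T hd a ω} :=
          measurableSet_lt measurable_const (measurable_T hd a)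
        rw [← lintegral_indicator_one hms]
        refine lintegral_congr fun ω => ?_
        simp [Set.indicator]
    _ < ∞ := by
        rw [tsum_eq_zero_add' ENNReal.summable]
        refine ENNReal.add_lt_top.2 ⟨measure_lt_top _ _, ?_⟩
        have hs : Summable fun k : ℕ => (((k + 1 : ℕ) : ℝ) ^ 2)⁻¹ :=
          (summable_nat_add_iff 1).2 (Real.summable_nat_pow_inv.2 one_lt_two)
        refine lt_of_le_of_lt (ENNReal.tsum_le_tsum fun k => T_tail_le hd a ha
          (t := ((k + 1 : ℕ) : ℝ)) (by positivity)) ?_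
        rw [← ENNReal.ofReal_tsum_of_nonneg (fun k => by positivity) hs]
        exact ENNReal.ofReal_lt_top

theorem not_memLp_T (hd : 0 < d) (a : Step d → Site d) (ha : Function.Injective a) :
    ¬ MemLp (T hd a) 2 (env d (law d)) := by
  intro h
  have hsq : Integrable (fun ω => (T hd a ω) ^ 2) (env d (law d)) := h.integrable_sq
  have hfin := hsq.lintegral_lt_top
  have hpt : ∀ x : ℝ, 0 ≤ x → (∑' k : ℕ, if ((k : ℝ) + 1) < x then (1 : ℝ≥0∞) else 0) ≤
      ENNReal.ofReal x := by
    intro x hx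
    have h1 : ∀ k ∉ Finset.range ⌊x⌋₊, (if ((k : ℝ) + 1) < x then (1 : ℝ≥0∞) else 0) = 0 := by
      intro k hk
      rw [Finset.mem_range, not_lt] at hk
      rw [if_neg]
      have h2 := Nat.lt_floor_add_one x
      have h3 : ((⌊x⌋₊ : ℕ) : ℝ) ≤ k := by exact_mod_cast hk
      linarith
    rw [tsum_eq_sum h1]
    calc ∑ k ∈ Finset.range ⌊x⌋₊, (if ((k : ℝ) + 1) < x then (1 : ℝ≥0∞) else 0)
        ≤ ∑ k ∈ Finset.range ⌊x⌋₊, (1 : ℝ≥0∞) := by
          refine Finset.sum_le_sum fun k _ => ?_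
          split_ifs <;> simp
      _ = ENNReal.ofReal (⌊x⌋₊ : ℝ) := by simp
      _ ≤ ENNReal.ofReal x := ENNReal.ofReal_le_ofReal (Nat.floor_le hx)
  have hsum : (∑' k : ℕ, env d (law d) {ω | ((k : ℝ) + 1) < (T hd a ω) ^ 2}) < ∞ := by
    refine lt_of_le_of_lt ?_ hfin
    calc (∑' k : ℕ, env d (law d) {ω | ((k : ℝ) + 1) < (T hd a ω) ^ 2})
        = ∑' k : ℕ, ∫⁻ ω, (if ((k : ℝ) + 1) < (T hd a ω) ^ 2 then (1 : ℝ≥0∞) else 0)
            ∂(env d (law d)) := by
          refine tsum_congr fun k => ?_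
          have hms : MeasurableSet {ω | ((k : ℝ) + 1) < (T hd a ω) ^ 2} :=
            measurableSet_lt measurable_const ((measurable_T hd a).pow_const 2)
          rw [← lintegral_indicator_one hms]
          refine lintegral_congr fun ω => ?_
          simp [Set.indicator]
      _ = ∫⁻ ω, ∑' k : ℕ, (if ((k : ℝ) + 1) < (T hd a ω) ^ 2 then (1 : ℝ≥0∞) else 0)
            ∂(env d (law d)) := by
          rw [lintegral_tsum]
          intro k
          exact (Measurable.ite (measurableSet_lt measurable_const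
            ((measurable_T hd a).pow_const 2)) measurable_const measurable_const).aemeasurable
      _ ≤ _ := lintegral_mono fun ω => hpt _ (sq_nonneg _)
  have hlow : ∀ k : ℕ, ENNReal.ofReal (((k + (4 ^ d + 1) : ℕ) : ℝ)⁻¹) ≤
      env d (law d) {ω | (((k + 4 ^ d : ℕ) : ℝ) + 1) < (T hd a ω) ^ 2} := by
    intro k
    set x : ℝ := ((k + (4 ^ d + 1) : ℕ) : ℝ) with hx
    have hx0 : 0 < x := by rw [hx]; positivity
    have hx4 : (4 : ℝ) ^ d ≤ x := by
      rw [hx]; push_cast
      have : (0 : ℝ) ≤ k := Nat.cast_nonneg k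
      linarith
    have hsx : (2 : ℝ) ^ d ≤ Real.sqrt x := by
      apply Real.le_sqrt_of_sq_le
      rw [← pow_mul, mul_comm, pow_mul]
      norm_num
      exact hx4
    have h1 := le_T_tail hd a ha hsx
    rw [Real.sq_sqrt hx0.le] at h1
    refine h1.trans (measure_mono ?_)
    intro ω hω
    have hω' : Real.sqrt x < T hd a ω := hω
    change (((k + 4 ^ d : ℕ) : ℝ) + 1) < (T hd a ω) ^ 2
    have h2 : (((k + 4 ^ d : ℕ) : ℝ) + 1) = x := by rw [hx]; push_cast; ring
    rw [h2]
    exact (Real.sqrt_lt' (lt_of_le_of_lt (Real.sqrt_nonneg x) hω')).1 hω'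
  have hsum2 : (∑' k : ℕ, ENNReal.ofReal (((k + (4 ^ d + 1) : ℕ) : ℝ)⁻¹)) < ∞ := by
    refine lt_of_le_of_lt (ENNReal.tsum_le_tsum hlow) ?_
    refine lt_of_le_of_lt ?_ hsum
    exact ENNReal.tsum_comp_le_tsum_of_injective (add_left_injective (4 ^ d))
      (fun k : ℕ => env d (law d) {ω | ((k : ℝ) + 1) < (T hd a ω) ^ 2})
  have hS : Summable fun k : ℕ => (((k + (4 ^ d + 1) : ℕ) : ℝ)⁻¹) := by
    have := ENNReal.summable_toReal hsum2.ne
    refine this.congr fun k => ?_
    rw [ENNReal.toReal_ofReal (by positivity)]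
  exact Real.not_summable_natCast_inv ((summable_nat_add_iff (4 ^ d + 1)).1 hS)

end Pool.Agent.H983R2.Polymer
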